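import Pool.Agent.H238.EntM
import Pool.Agent.H238.FGTree

/-!
# MP_2e25e6_lc: there is no measurable kernel

For every `n ≥ 1` the directed Schreier graph of the Bernoulli shift of the free group `F_n` on
`{0,1} ^ F_n` has no measurable kernel with respect to the fair coin measure.

Idea. The indicator `L` of a kernel satisfies `L x = NOR (L (a_1 x), …, L (a_n x))`. For every finite
valued observable `τ` which determines `x (g)` for some `g`, the quantity
`F τ = (1 - 2n) H(τ) + ∑ H(τ, τ ∘ a_i)` is at least `log 2` (a case of a theorem of Bowen, proved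
here). Applied to `τ = ((L (a_i x))_i, x restricted to E)` this forces, by an induction over finite
subtrees `E`, that `L` is independent of the coordinates in `E`. So `L` is constant.
-/

set_option autoImplicit false
set_option linter.unusedSectionVars false

open MeasureTheory Filter Topology FreeGroup Pool.Agent.H238.EntM Pool.Agent.H238.FGTree

namespace Pool.Agent.Results.MP_2e25e6_lc.NoMeasurableKernel

noncomputable section

/-- The space `{0,1} ^ F_n`. -/
abbrev Cfg (n : ℕ) : Type := FreeGroup (Fin n) → Bool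

/-- The Bernoulli shift action `(g · x)(h) = x (h g)`. -/
def shift {n : ℕ} (g : FreeGroup (Fin n)) (x : Cfg n) : Cfg n := fun h => x (h * g)

/-- The uniform probability measure on `{0,1}`. -/
def coin : Measure Bool := (2 : ENNReal)⁻¹ • Measure.count

/-- The product of the uniform measures. -/
def bern (n : ℕ) : Measure (Cfg n) := Measure.infinitePi fun _ => coin

/-- The free part of the action. -/
def freePart (n : ℕ) : Set (Cfg n) := {x | ∀ g : FreeGroup (Fin n), g ≠ 1 → shift g x ≠ x}

/-- `A` is a kernel of the directed graph induced on `Y`, with an arc from `x` to `a_i x` for every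
generator `a_i`. -/
structure IsKernel {n : ℕ} (Y A : Set (Cfg n)) : Prop where
  subset : A ⊆ Y
  independent : ∀ x ∈ A, ∀ y ∈ A, ∀ i : Fin n, y ≠ shift (of i) x
  dominating : ∀ x ∈ Y, x ∉ A → ∃ i : Fin n, shift (of i) x ∈ A

/-- There is a measurable kernel: a Borel kernel on an invariant conull Borel subset of the free
part. -/
def HasMeasurableKernel (n : ℕ) : Prop :=
  ∃ Y A : Set (Cfg n), Y ⊆ freePart n ∧ MeasurableSet Y ∧ (∀ g, ∀ x ∈ Y, shift g x ∈ Y) ∧
    bern n Y = 1 ∧ MeasurableSet A ∧ IsKernel Y A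

/-! ### the measure -/

instance : IsProbabilityMeasure coin := by
  constructor
  unfold coin
  rw [Measure.smul_apply, Measure.count_univ, smul_eq_mul]
  simp only [ENat.card_eq_coe_fintype_card, Fintype.card_bool]
  norm_num
  exact ENNReal.inv_mul_cancel (by norm_num) (by norm_num)

theorem coin_singleton (b : Bool) : coin {b} = 2⁻¹ := by
  unfold coin
  rw [Measure.smul_apply, Measure.count_singleton, smul_eq_mul, mul_one]

variable {n : ℕ}

instance : IsProbabilityMeasure (bern n) := by unfold bern; infer_instance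

theorem shift_shift (g h : FreeGroup (Fin n)) (x : Cfg n) : shift g (shift h x) = shift (g * h) x := by
  funext k
  show x (k * g * h) = x (k * (g * h))
  rw [mul_assoc]

theorem shift_mp (g : FreeGroup (Fin n)) : MeasurePreserving (shift g) (bern n) (bern n) := by
  have hm : Measurable (shift g : Cfg n → Cfg n) :=
    measurable_pi_lambda _ fun h => measurable_pi_apply _
  refine ⟨hm, ?_⟩
  unfold bern
  apply Measure.eq_infinitePi
  intro s t ht
  rw [Measure.map_apply hm (MeasurableSet.pi s.countable_toSet fun _ _ => ht _)]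
  have h1 : (shift g : Cfg n → Cfg n) ⁻¹' (Set.pi s t) =
      Set.pi (s.image (fun h => h * g) : Finset (FreeGroup (Fin n))) (fun k => t (k * g⁻¹)) := by
    ext x
    constructor
    · intro hx k hk
      obtain ⟨h, hh, rfl⟩ := Finset.mem_image.mp (Finset.mem_coe.mp hk)
      have h2 : x (h * g) ∈ t h := hx h hh
      have h3 : t (h * g * g⁻¹) = t h := congrArg t (mul_inv_cancel_right h g)
      show x (h * g) ∈ t (h * g * g⁻¹)
      rw [h3]; exact h2
    · intro hx h hh
      have h2 : x (h * g) ∈ t (h * g * g⁻¹) :=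
        hx (h * g) (Finset.mem_coe.mpr (Finset.mem_image_of_mem _ hh))
      have h3 : t (h * g * g⁻¹) = t h := congrArg t (mul_inv_cancel_right h g)
      rw [h3] at h2; exact h2
  rw [h1, Measure.infinitePi_pi _ (fun _ _ => ht _), Finset.prod_image (fun a _ b _ h => mul_right_cancel h)]
  apply Finset.prod_congr rfl
  intro h _
  have h3 : t (h * g * g⁻¹) = t h := congrArg t (mul_inv_cancel_right h g)
  rw [h3]

/-- restriction to `E` -/
def z (E : Finset (FreeGroup (Fin n))) (x : Cfg n) : E → Bool := fun g => x g.1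

theorem z_eq {E : Finset (FreeGroup (Fin n))} {x y : Cfg n} : z E x = z E y ↔ ∀ g ∈ E, x g = y g := by
  constructor
  · intro h g hg
    exact congrFun h ⟨g, hg⟩
  · intro h
    funext g
    exact h g.1 g.2

theorem z_mb (E : Finset (FreeGroup (Fin n))) : Mb (z E) :=
  Mb.pi fun g s => measurable_pi_apply g.1 (measurableSet_singleton s)

theorem z_shift_eq {E : Finset (FreeGroup (Fin n))} {x y : Cfg n} {g : FreeGroup (Fin n)} :
    z E (shift g x) = z E (shift g y) ↔ ∀ h ∈ E, x (h * g) = y (h * g) := z_eq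

theorem Hm_z (E : Finset (FreeGroup (Fin n))) : Hm (bern n) (z E) = E.card * Real.log 2 := by
  have h1 : ∀ c : E → Bool, (bern n).real (z E ⁻¹' {c}) = (1 / 2) ^ E.card := by
    intro c
    have h2 : z E ⁻¹' {c} = Set.pi E (fun g => {if h : g ∈ E then c ⟨g, h⟩ else false}) := by
      ext x
      simp only [Set.mem_preimage, Set.mem_singleton_iff, Set.mem_pi, Finset.mem_coe]
      constructor
      · intro h g hg
        rw [dif_pos hg, ← h]; rfl
      · intro h
        funext g
        have := h g.1 g.2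
        rw [dif_pos g.2] at this
        exact this
    unfold Measure.real bern
    rw [h2, Measure.infinitePi_pi _ (fun _ _ => measurableSet_singleton _)]
    simp only [coin_singleton, Finset.prod_const]
    simp
  unfold Hm
  simp only [h1, Finset.sum_const, Finset.card_univ, nsmul_eq_mul]
  rw [Fintype.card_fun, Fintype.card_bool, Fintype.card_coe]
  unfold Real.negMulLog
  rw [Real.log_pow, one_div, Real.log_inv]
  push_cast
  have h3 : ((2 : ℝ) ^ E.card) * ((2 : ℝ)⁻¹ ^ E.card) = 1 := by
    rw [← mul_pow]; norm_num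
  calc _ = ((2 : ℝ) ^ E.card * ((2 : ℝ)⁻¹ ^ E.card)) * (E.card * Real.log 2) := by ring
    _ = _ := by rw [h3, one_mul]

/-! ### the functional `F` -/

/-- Bowen's functional -/
def F {S : Type} [Fintype S] (τ : Cfg n → S) : ℝ :=
  (1 - 2 * n) * Hm (bern n) τ + ∑ i : Fin n, Hm (bern n) (fun x => (τ x, τ (shift (of i) x)))

theorem ae_univ' : ∀ᵐ x ∂(bern n), x ∈ (Set.univ : Set (Cfg n)) := Eventually.of_forall fun _ => trivial

theorem Hm_equiv {S T : Type} [Fintype S] [Fintype T] {σ : Cfg n → S} {τ : Cfg n → T} (hσ : Mb σ)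
    (hτ : Mb τ) (h : ∀ x y, σ x = σ y ↔ τ x = τ y) : Hm (bern n) σ = Hm (bern n) τ :=
  le_antisymm (Hm_le ae_univ' hτ fun x _ y _ => (h x y).mpr) (Hm_le ae_univ' hσ fun x _ y _ => (h x y).mp)

theorem F_equiv {S T : Type} [Fintype S] [Fintype T] {σ : Cfg n → S} {τ : Cfg n → T} (hσ : Mb σ)
    (hτ : Mb τ) (h : ∀ x y, σ x = σ y ↔ τ x = τ y) : F σ = F τ := by
  unfold F
  rw [Hm_equiv hσ hτ h]
  congr 1
  apply Finset.sum_congr rfl
  intro i _
  apply Hm_equiv (hσ.prod (hσ.comp (shift_mp _).measurable)) (hτ.prod (hτ.comp (shift_mp _).measurable))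
  intro x y
  rw [Prod.ext_iff, Prod.ext_iff]
  exact and_congr (h _ _) (h _ _)

theorem split {S T : Type} [Fintype S] [Fintype T] {P : Cfg n → S} {R : Cfg n → T} (hP : Mb P)
    (hR : Mb R) (hPR : ∀ x y, P x = P y → R x = R y) (p : Fin n × Bool) :
    F (fun x => (P x, R (shift (mk [p]) x))) ≤ F P := by
  set Q : Cfg n → S × T := fun x => (P x, R (shift (mk [p]) x)) with hQdef
  have hQ : Mb Q := hP.prod (hR.comp (shift_mp _).measurable)
  have hQP : ∀ x y, Q x = Q y → P x = P y := fun x y h => (Prod.ext_iff.mp h).1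
  have hh : Hm (bern n) P ≤ Hm (bern n) Q := Hm_le ae_univ' hQ fun x _ y _ => hQP x y
  have key : ∀ i : Fin n, Hm (bern n) (fun x => (Q x, Q (shift (of i) x))) ≤
      Hm (bern n) (fun x => (P x, P (shift (of i) x))) + (2 * (Hm (bern n) Q - Hm (bern n) P) -
        if i = p.1 then (Hm (bern n) Q - Hm (bern n) P) else 0) := by
    intro i
    have hT := shift_mp (n := n) (of i)
    have hPT : Mb (fun x => P (shift (of i) x)) := hP.comp hT.measurable
    have hQT : Mb (fun x => Q (shift (of i) x)) := hQ.comp hT.measurable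
    have e1 : Hm (bern n) (fun x => P (shift (of i) x)) = Hm (bern n) P := Hm_mp hP hT
    have e2 : Hm (bern n) (fun x => Q (shift (of i) x)) = Hm (bern n) Q := Hm_mp hQ hT
    have s1 := Hm_submod (μ := bern n) (Y := Set.univ) (a := fun x => (Q x, P (shift (of i) x)))
      (b := fun x => (P x, Q (shift (of i) x))) (c := fun x => (Q x, Q (shift (of i) x)))
      (d := fun x => (P x, P (shift (of i) x))) ae_univ' (hQ.prod hPT) (hP.prod hQT) (hP.prod hPT)
      (fun x _ y _ h1 h2 => Prod.ext (Prod.ext_iff.mp h1).1 (Prod.ext_iff.mp h2).2)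
      (fun x _ y _ h1 => Prod.ext (hQP _ _ (Prod.ext_iff.mp h1).1) (Prod.ext_iff.mp h1).2)
      (fun x _ y _ h1 => Prod.ext (Prod.ext_iff.mp h1).1 (hQP _ _ (Prod.ext_iff.mp h1).2))
    have s2 := Hm_submod (μ := bern n) (Y := Set.univ) (a := Q)
      (b := fun x => (P x, P (shift (of i) x))) (c := fun x => (Q x, P (shift (of i) x)))
      (d := P) ae_univ' hQ (hP.prod hPT) hP
      (fun x _ y _ h1 h2 => Prod.ext h1 (Prod.ext_iff.mp h2).2)
      (fun x _ y _ h1 => hQP _ _ h1)
      (fun x _ y _ h1 => (Prod.ext_iff.mp h1).1)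
    have s3 := Hm_submod (μ := bern n) (Y := Set.univ) (a := fun x => Q (shift (of i) x))
      (b := fun x => (P x, P (shift (of i) x))) (c := fun x => (P x, Q (shift (of i) x)))
      (d := fun x => P (shift (of i) x)) ae_univ' hQT (hP.prod hPT) hPT
      (fun x _ y _ h1 h2 => Prod.ext (Prod.ext_iff.mp h2).1 h1)
      (fun x _ y _ h1 => hQP _ _ h1)
      (fun x _ y _ h1 => (Prod.ext_iff.mp h1).2)
    by_cases hi : i = p.1
    · rw [if_pos hi]
      obtain ⟨j, b⟩ := p
      simp only at hi
      subst hi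
      cases b
      · -- `V` is determined by `PP`
        have s4 : Hm (bern n) (fun x => (P x, Q (shift (of i) x))) ≤
            Hm (bern n) (fun x => (P x, P (shift (of i) x))) := by
          apply Hm_le ae_univ' (hP.prod hPT)
          intro x _ y _ h1
          have h2 := (Prod.ext_iff.mp h1).1
          have h3 := (Prod.ext_iff.mp h1).2
          refine Prod.ext h2 (Prod.ext h3 ?_)
          have h4 : ∀ x : Cfg n, shift (mk [(i, false)]) (shift (of i) x) = x := by
            intro x
            rw [shift_shift, ← of_inv, inv_mul_cancel]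
            funext k
            show x (k * 1) = x k
            rw [mul_one]
          show R (shift (mk [(i, false)]) (shift (of i) x)) = R (shift (mk [(i, false)]) (shift (of i) y))
          rw [h4, h4]
          exact hPR _ _ h2
        linarith
      · have s4 : Hm (bern n) (fun x => (Q x, P (shift (of i) x))) ≤
            Hm (bern n) (fun x => (P x, P (shift (of i) x))) := by
          apply Hm_le ae_univ' (hP.prod hPT)
          intro x _ y _ h1
          have h2 := (Prod.ext_iff.mp h1).1
          have h3 := (Prod.ext_iff.mp h1).2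
          exact Prod.ext (Prod.ext h2 (hPR _ _ h3)) h3
        linarith
    · rw [if_neg hi]
      linarith
  have hsum := Finset.sum_le_sum fun i (_ : i ∈ (Finset.univ : Finset (Fin n))) => key i
  rw [Finset.sum_add_distrib, Finset.sum_sub_distrib, Finset.sum_const, Finset.card_univ,
    Fintype.card_fin, Finset.sum_ite_eq' Finset.univ p.1, if_pos (Finset.mem_univ _), nsmul_eq_mul] at hsum
  unfold F
  nlinarith [hsum, hh]

/-- pairs of a function and a restriction -/
abbrev pz {S : Type} (σ : Cfg n → S) (E : Finset (FreeGroup (Fin n))) : Cfg n → S × (E → Bool) :=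
  fun x => (σ x, z E x)

theorem pz_mb {S : Type} {σ : Cfg n → S} (hσ : Mb σ) (E : Finset (FreeGroup (Fin n))) :
    Mb (pz σ E) := hσ.prod (z_mb E)

theorem grow1 {S : Type} [Fintype S] {σ : Cfg n → S} (hσ : Mb σ) (E : Finset (FreeGroup (Fin n)))
    (g : FreeGroup (Fin n)) (hg : g ∈ E) (p : Fin n × Bool) :
    ∃ E', E ⊆ E' ∧ g * mk [p] ∈ E' ∧ F (pz σ E') ≤ F (pz σ E) := by
  refine ⟨E ∪ E.image (fun h => h * mk [p]), Finset.subset_union_left,
    Finset.mem_union_right _ (Finset.mem_image_of_mem _ hg), ?_⟩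
  have h1 := split (P := pz σ E) (R := z E) (pz_mb hσ E) (z_mb E)
    (fun x y h => (Prod.ext_iff.mp h).2) p
  refine le_trans (le_of_eq ?_) h1
  apply F_equiv (pz_mb hσ _) ((pz_mb hσ E).prod ((z_mb E).comp (shift_mp _).measurable))
  intro x y
  simp only [pz, Prod.mk.injEq, z_eq]
  constructor
  · rintro ⟨h1, h2⟩
    exact ⟨⟨h1, fun g hg => h2 g (Finset.mem_union_left _ hg)⟩,
      fun h hh => h2 _ (Finset.mem_union_right _ (Finset.mem_image_of_mem _ hh))⟩
  · rintro ⟨⟨h1, h2⟩, h3⟩
    refine ⟨h1, fun g hg => ?_⟩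
    rcases Finset.mem_union.mp hg with h | h
    · exact h2 g h
    · obtain ⟨k, hk, rfl⟩ := Finset.mem_image.mp h
      exact h3 k hk

theorem growl {S : Type} [Fintype S] {σ : Cfg n → S} (hσ : Mb σ) (l : List (Fin n × Bool)) :
    ∀ (E : Finset (FreeGroup (Fin n))) (g : FreeGroup (Fin n)), g ∈ E →
    ∃ E', E ⊆ E' ∧ g * mk l ∈ E' ∧ F (pz σ E') ≤ F (pz σ E) := by
  induction l with
  | nil =>
    intro E g hg
    refine ⟨E, le_refl _, ?_, le_refl _⟩
    have : (mk [] : FreeGroup (Fin n)) = 1 := rfl
    rw [this, mul_one]; exact hg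
  | cons p l ih =>
    intro E g hg
    obtain ⟨E1, h1, h2, h3⟩ := grow1 hσ E g hg p
    obtain ⟨E2, h4, h5, h6⟩ := ih E1 _ h2
    refine ⟨E2, h1.trans h4, ?_, h6.trans h3⟩
    have : (mk (p :: l) : FreeGroup (Fin n)) = mk [p] * mk l := rfl
    rw [this, ← mul_assoc]; exact h5

theorem growW {S : Type} [Fintype S] {σ : Cfg n → S} (hσ : Mb σ) (E : Finset (FreeGroup (Fin n)))
    (hE : E.Nonempty) (W : Finset (FreeGroup (Fin n))) :
    ∃ E', E ⊆ E' ∧ W ⊆ E' ∧ F (pz σ E') ≤ F (pz σ E) := by
  induction W using Finset.induction_on with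
  | empty => exact ⟨E, le_refl _, Finset.empty_subset _, le_refl _⟩
  | insert w W hw ih =>
    obtain ⟨E1, h1, h2, h3⟩ := ih
    obtain ⟨g, hg⟩ := hE
    obtain ⟨E2, h4, h5, h6⟩ := growl hσ (g⁻¹ * w).toWord E1 g (h1 hg)
    refine ⟨E2, h1.trans h4, ?_, h6.trans h3⟩
    rw [mk_toWord, mul_inv_cancel_left] at h5
    exact Finset.insert_subset h5 (h2.trans h4)

/-- entropy of the pair of a restriction and its translate -/
theorem pair_ge (E : Finset (FreeGroup (Fin n))) (i : Fin n) :
    (2 * (E.card : ℝ) - edges E i) * Real.log 2 ≤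
      Hm (bern n) (fun x => (z E x, z E (shift (of i) x))) := by
  have h1 : Hm (bern n) (z (E ∪ E.image (fun h => h * of i))) ≤
      Hm (bern n) (fun x => (z E x, z E (shift (of i) x))) := by
    apply Hm_le ae_univ' ((z_mb E).prod ((z_mb E).comp (shift_mp _).measurable))
    intro x _ y _ h
    simp only [Prod.mk.injEq, z_eq] at h
    rw [z_eq]
    intro g hg
    rcases Finset.mem_union.mp hg with h' | h'
    · exact h.1 g h'
    · obtain ⟨k, hk, rfl⟩ := Finset.mem_image.mp h'
      exact h.2 k hk
  refine le_trans (le_of_eq ?_) h1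
  rw [Hm_z]
  congr 1
  have h2 := Finset.card_union_add_card_inter E (E.image (fun h => h * of i))
  have h3 : (E.image (fun h => h * of i)).card = E.card :=
    Finset.card_image_of_injective _ (mul_left_injective _)
  have h4 : (E ∩ E.image (fun h => h * of i)).card = edges E i := by
    have h5 : E ∩ E.image (fun h => h * of i) = (E.filter fun y => y * of i ∈ E).image (fun h => h * of i) := by
      ext g
      simp only [Finset.mem_inter, Finset.mem_image, Finset.mem_filter]
      constructor
      · rintro ⟨h6, k, hk, rfl⟩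
        exact ⟨k, ⟨hk, h6⟩, rfl⟩
      · rintro ⟨k, ⟨hk, h6⟩, rfl⟩
        exact ⟨h6, k, hk, rfl⟩
    rw [h5, Finset.card_image_of_injective _ (mul_left_injective _)]
    rfl
  rw [h3, h4] at h2
  have h6 : ((E ∪ E.image (fun h => h * of i)).card : ℝ) + edges E i = E.card + E.card := by
    exact_mod_cast h2
  linarith

theorem cond_nonneg {S : Type} [Fintype S] {σ : Cfg n → S} (hσ : Mb σ) (E : Finset (FreeGroup (Fin n))) :
    (E.card : ℝ) * Real.log 2 ≤ Hm (bern n) (pz σ E) := by
  rw [← Hm_z]
  exact Hm_le ae_univ' (pz_mb hσ E) fun x _ y _ h => (Prod.ext_iff.mp h).2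

theorem F_ge_fin {S : Type} [Fintype S] {σ : Cfg n → S} (hσ : Mb σ) (E : Finset (FreeGroup (Fin n)))
    (hE : E.Nonempty) :
    Real.log 2 - 2 * n * (Hm (bern n) (pz σ E) - E.card * Real.log 2) ≤ F (pz σ E) := by
  have h1 : ∀ i : Fin n, (2 * (E.card : ℝ) - edges E i) * Real.log 2 ≤
      Hm (bern n) (fun x => (pz σ E x, pz σ E (shift (of i) x))) := by
    intro i
    refine (pair_ge E i).trans ?_
    apply Hm_le ae_univ' ((pz_mb hσ E).prod ((pz_mb hσ E).comp (shift_mp _).measurable))
    intro x _ y _ h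
    exact Prod.ext (Prod.ext_iff.mp (Prod.ext_iff.mp h).1).2 (Prod.ext_iff.mp (Prod.ext_iff.mp h).2).2
  have h2 := Finset.sum_le_sum fun i (_ : i ∈ (Finset.univ : Finset (Fin n))) => h1 i
  rw [← Finset.sum_mul, Finset.sum_sub_distrib, Finset.sum_const, Finset.card_univ, Fintype.card_fin,
    nsmul_eq_mul] at h2
  have h3 := forest E hE
  have h4 : (∑ i : Fin n, (edges E i : ℝ)) + 1 ≤ E.card := by exact_mod_cast h3
  have h5 := cond_nonneg hσ E
  have h6 : (0 : ℝ) < Real.log 2 := Real.log_pos (by norm_num)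
  unfold F
  have h7 : 0 ≤ ((E.card : ℝ) - 1 - ∑ i : Fin n, (edges E i : ℝ)) * Real.log 2 :=
    mul_nonneg (by linarith) h6.le
  nlinarith [h2, h5, h7]

theorem F_ge {S : Type} [Fintype S] {σ : Cfg n → S} (hσ : Mb σ)
    (hsmall : ∀ ε > 0, ∃ W, ∀ E, W ⊆ E → Hm (bern n) (pz σ E) - E.card * Real.log 2 ≤ ε)
    (E : Finset (FreeGroup (Fin n))) (hE : E.Nonempty) : Real.log 2 ≤ F (pz σ E) := by
  by_contra hcon
  push Not at hcon
  set d := Real.log 2 - F (pz σ E) with hd
  have hdpos : 0 < d := by rw [hd]; linarith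
  obtain ⟨W, hW⟩ := hsmall (d / (2 * (2 * n + 1))) (by positivity)
  obtain ⟨E', h1, h2, h3⟩ := growW hσ E hE W
  have h4 := F_ge_fin hσ E' (hE.mono h1)
  have h5 := hW E' h2
  have h6 : 2 * (n : ℝ) * (Hm (bern n) (pz σ E') - E'.card * Real.log 2) ≤
      2 * (n : ℝ) * (d / (2 * (2 * n + 1))) := mul_le_mul_of_nonneg_left h5 (by positivity)
  have h7 : 2 * (n : ℝ) * (d / (2 * (2 * n + 1))) < d := by
    have : 2 * (n : ℝ) * (d / (2 * (2 * n + 1))) = d * (n / (2 * n + 1)) := by
      field_simp
    rw [this]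
    have h8 : (n : ℝ) / (2 * n + 1) < 1 := by
      rw [div_lt_one (by positivity)]
      have : (0 : ℝ) ≤ n := Nat.cast_nonneg n
      linarith
    nlinarith
  linarith

/-- conditioning on more reduces entropy -/
theorem cond_mono {S T : Type} [Fintype S] [Fintype T] {σ : Cfg n → S} {B : Cfg n → T} (hσ : Mb σ)
    (hB : Mb B) (E : Finset (FreeGroup (Fin n))) (h : ∀ x y, z E x = z E y → B x = B y) :
    Hm (bern n) (pz σ E) - E.card * Real.log 2 ≤ Hm (bern n) (fun x => (σ x, B x)) - Hm (bern n) B := by
  have s := Hm_submod (μ := bern n) (Y := Set.univ) (a := fun x => (σ x, B x)) (b := z E)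
    (c := pz σ E) (d := B) ae_univ' (hσ.prod hB) (z_mb E) hB
    (fun x _ y _ h1 h2 => Prod.ext (Prod.ext_iff.mp h1).1 h2)
    (fun x _ y _ h1 => (Prod.ext_iff.mp h1).2)
    (fun x _ y _ h1 => h x y h1)
  rw [Hm_z] at s
  linarith

/-- subadditivity for tuples -/
theorem tuple_le {L : Cfg n → Bool} (hL : Mb L) (E : Finset (FreeGroup (Fin n))) :
    Hm (bern n) (pz (fun x (i : Fin n) => L (shift (of i) x)) E) - E.card * Real.log 2 ≤
      ∑ i : Fin n, (Hm (bern n) (pz (fun x => L (shift (of i) x)) E) - E.card * Real.log 2) := by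
  have hLi : ∀ i : Fin n, Mb (fun x => L (shift (of i) x)) := fun i => hL.comp (shift_mp _).measurable
  have key : ∀ J : Finset (Fin n),
      Hm (bern n) (pz (fun x (i : Fin n) => if i ∈ J then L (shift (of i) x) else false) E) -
        E.card * Real.log 2 ≤
      ∑ i ∈ J, (Hm (bern n) (pz (fun x => L (shift (of i) x)) E) - E.card * Real.log 2) := by
    intro J
    have hmb : ∀ J : Finset (Fin n), Mb (fun x (i : Fin n) => if i ∈ J then L (shift (of i) x) else false) := by
      intro J
      apply Mb.pi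
      intro i
      by_cases hi : i ∈ J
      · simp only [hi, if_true]; exact hLi i
      · simp only [hi, if_false]; exact fun s => measurableSet_preimage measurable_const (measurableSet_singleton s)
    induction J using Finset.induction_on with
    | empty =>
      rw [Finset.sum_empty, ← Hm_z]
      have : Hm (bern n) (pz (fun x (i : Fin n) => if i ∈ (∅ : Finset (Fin n)) then L (shift (of i) x) else false) E) ≤
          Hm (bern n) (z E) := by
        apply Hm_le ae_univ' (z_mb E)
        intro x _ y _ h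
        refine Prod.ext ?_ h
        funext i
        simp
      linarith
    | insert j J hj ih =>
      rw [Finset.sum_insert hj]
      have s := Hm_submod (μ := bern n) (Y := Set.univ)
        (a := pz (fun x (i : Fin n) => if i ∈ J then L (shift (of i) x) else false) E)
        (b := pz (fun x => L (shift (of j) x)) E)
        (c := pz (fun x (i : Fin n) => if i ∈ insert j J then L (shift (of i) x) else false) E)
        (d := z E) ae_univ' (pz_mb (hmb J) E) (pz_mb (hLi j) E) (z_mb E)
        (fun x _ y _ h1 h2 => by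
          refine Prod.ext ?_ (Prod.ext_iff.mp h1).2
          funext i
          have h3 := congrFun (Prod.ext_iff.mp h1).1 i
          have h4 : L (shift (of j) x) = L (shift (of j) y) := (Prod.ext_iff.mp h2).1
          simp only at h3 ⊢
          by_cases hij : i = j
          · subst hij
            simp only [Finset.mem_insert_self, if_true]; exact h4
          · by_cases hiJ : i ∈ J
            · simp only [hiJ, if_true, Finset.mem_insert, or_true] at h3 ⊢; exact h3
            · simp only [hiJ, Finset.mem_insert, hij, or_self, if_false])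
        (fun x _ y _ h1 => (Prod.ext_iff.mp h1).2)
        (fun x _ y _ h1 => (Prod.ext_iff.mp h1).2)
      rw [Hm_z] at s
      linarith
  have := key Finset.univ
  simpa using this

/-! ### the observable of a kernel -/

section kernel

variable {L : Cfg n → Bool} (hL : Mb L) {Y : Set (Cfg n)} (hY : ∀ᵐ x ∂(bern n), x ∈ Y)
  (hinv : ∀ (g : FreeGroup (Fin n)), ∀ x ∈ Y, shift g x ∈ Y)
  (hdet : ∀ x ∈ Y, ∀ y ∈ Y, (∀ i : Fin n, L (shift (of i) x) = L (shift (of i) y)) → L x = L y)
  (hsmall : ∀ ε > 0, ∃ W, ∀ E, W ⊆ E → Hm (bern n) (pz L E) - E.card * Real.log 2 ≤ ε)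

/-- conditional entropy of `L` given the coordinates in `E` -/
def K (L : Cfg n → Bool) (E : Finset (FreeGroup (Fin n))) : ℝ :=
  Hm (bern n) (pz L E) - E.card * Real.log 2

/-- the tuple of the values of `L` at the out-neighbours -/
def tup (L : Cfg n → Bool) (x : Cfg n) : Fin n → Bool := fun i => L (shift (of i) x)

include hL in
theorem tup_mb : Mb (tup L) := Mb.pi fun _ => hL.comp (shift_mp _).measurable

include hL in
theorem K_anti {E E' : Finset (FreeGroup (Fin n))} (h : E ⊆ E') : K L E' ≤ K L E := by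
  have := cond_mono hL (z_mb E) E' (fun x y hxy => z_eq.mpr fun g hg => z_eq.mp hxy g (h hg))
  rw [Hm_z] at this
  exact this

/-- the entropy of a translate of the pair -/
theorem Hm_translate (hL : Mb L) (E : Finset (FreeGroup (Fin n))) (i : Fin n) :
    Hm (bern n) (fun x => pz L E (shift (of i) x)) = Hm (bern n) (pz L E) :=
  Hm_mp (pz_mb hL E) (shift_mp _)

/-- a translate of `K` -/
theorem K_shift (hL : Mb L) {E E' : Finset (FreeGroup (Fin n))} (i : Fin n)
    (h : ∀ g ∈ E, g * of i ∈ E') :
    Hm (bern n) (pz (fun x => L (shift (of i) x)) E') - E'.card * Real.log 2 ≤ K L E := by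
  have h1 := cond_mono (σ := fun x => L (shift (of i) x)) (B := fun x => z E (shift (of i) x))
    (hL.comp (shift_mp _).measurable) ((z_mb E).comp (shift_mp _).measurable) E'
    (fun x y hxy => z_shift_eq.mpr fun g hg => z_eq.mp hxy _ (h g hg))
  have h2 := Hm_translate hL E i
  have h3 : Hm (bern n) (fun x => z E (shift (of i) x)) = Hm (bern n) (z E) := Hm_mp (z_mb E) (shift_mp _)
  rw [h3, Hm_z] at h1
  unfold K
  rw [← h2]
  exact h1

include hL hsmall in
theorem tup_small : ∀ ε > 0, ∃ W, ∀ E, W ⊆ E → Hm (bern n) (pz (tup L) E) - E.card * Real.log 2 ≤ ε := by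
  intro ε hε
  obtain ⟨W, hW⟩ := hsmall (ε / (n + 1)) (by positivity)
  refine ⟨(Finset.univ : Finset (Fin n)).biUnion fun i => W.image fun g => g * of i, ?_⟩
  intro E hE
  refine (tuple_le hL E).trans ?_
  have h1 : ∀ i : Fin n, Hm (bern n) (pz (fun x => L (shift (of i) x)) E) - E.card * Real.log 2 ≤
      ε / (n + 1) := by
    intro i
    refine (K_shift hL (E := W) i ?_).trans (hW W (le_refl _))
    intro g hg
    exact hE (Finset.mem_biUnion.mpr ⟨i, Finset.mem_univ _, Finset.mem_image_of_mem _ hg⟩)
  refine (Finset.sum_le_sum fun i _ => h1 i).trans ?_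
  rw [Finset.sum_const, Finset.card_univ, Fintype.card_fin, nsmul_eq_mul, mul_div_assoc',
    div_le_iff₀ (by positivity)]
  nlinarith [Nat.cast_nonneg (α := ℝ) n]

include hL hY hinv hdet hsmall in
/-- the main inequality -/
theorem main_ineq {E : Finset (FreeGroup (Fin n))} (hE : Good E) :
    E.card * Real.log 2 + ∑ i : Fin n, K L (E.filter fun y => y * of i ∈ E) ≤
      Hm (bern n) (pz (tup L) E) := by
  have h1 := F_ge (tup_mb hL) (tup_small hL hsmall) E hE.nonempty
  have h2 : ∀ i : Fin n, Hm (bern n) (fun x => (pz (tup L) E x, pz (tup L) E (shift (of i) x))) +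
      (K L (E.filter fun y => y * of i ∈ E) + edges E i * Real.log 2) ≤
      2 * Hm (bern n) (pz (tup L) E) := by
    intro i
    have hm := pz_mb (tup_mb hL) E
    have hmT : Mb (fun x => pz (tup L) E (shift (of i) x)) := hm.comp (shift_mp _).measurable
    have s := Hm_submod (μ := bern n) (Y := Y) (a := pz (tup L) E)
      (b := fun x => pz (tup L) E (shift (of i) x))
      (c := fun x => (pz (tup L) E x, pz (tup L) E (shift (of i) x)))
      (d := fun x => pz L (E.filter fun y => y * of i ∈ E) (shift (of i) x)) hY hm hmT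
      ((pz_mb hL _).comp (shift_mp _).measurable)
      (fun x _ y _ h3 h4 => Prod.ext h3 h4)
      (fun x _ y _ h3 => by
        refine Prod.ext ?_ ?_
        · exact congrFun (Prod.ext_iff.mp h3).1 i
        · refine z_shift_eq.mpr fun g hg => ?_
          exact z_eq.mp (Prod.ext_iff.mp h3).2 _ (Finset.mem_filter.mp hg).2)
      (fun x hx y hy h3 => by
        refine Prod.ext ?_ ?_
        · exact hdet _ (hinv _ x hx) _ (hinv _ y hy) fun j => congrFun (Prod.ext_iff.mp h3).1 j
        · show z _ (shift (of i) x) = z _ (shift (of i) y)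
          have h5 : z E (shift (of i) x) = z E (shift (of i) y) := (Prod.ext_iff.mp h3).2
          exact z_eq.mpr fun g hg => z_eq.mp h5 g (Finset.mem_filter.mp hg).1)
    have e1 : Hm (bern n) (fun x => pz (tup L) E (shift (of i) x)) = Hm (bern n) (pz (tup L) E) :=
      Hm_mp hm (shift_mp _)
    have e2 := Hm_translate hL (E.filter fun y => y * of i ∈ E) i
    unfold K edges
    linarith
  have h3 := Finset.sum_le_sum fun i (_ : i ∈ (Finset.univ : Finset (Fin n))) => h2 i
  rw [Finset.sum_add_distrib, Finset.sum_add_distrib, ← Finset.sum_mul, Finset.sum_const,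
    Finset.card_univ, Fintype.card_fin, nsmul_eq_mul] at h3
  unfold F at h1
  have h4 := hE.card
  have h5 : (E.card : ℝ) ≤ (∑ i : Fin n, (edges E i : ℝ)) + 1 := by exact_mod_cast h4
  have h6 : (0 : ℝ) < Real.log 2 := Real.log_pos (by norm_num)
  have h7 : 0 ≤ ((∑ i : Fin n, (edges E i : ℝ)) + 1 - E.card) * Real.log 2 :=
    mul_nonneg (by linarith) h6.le
  nlinarith [h1, h3, h7]

include hL in
theorem tup_le : Hm (bern n) (tup L) ≤ n * K L ∅ := by
  have h1 := tuple_le hL (n := n) ∅
  have h2 : Hm (bern n) (tup L) ≤ Hm (bern n) (pz (tup L) ∅) :=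
    Hm_le ae_univ' (pz_mb (tup_mb hL) _) fun x _ y _ h => (Prod.ext_iff.mp h).1
  have h3 : ∀ i : Fin n, Hm (bern n) (pz (fun x => L (shift (of i) x)) ∅) -
      (∅ : Finset (FreeGroup (Fin n))).card * Real.log 2 ≤ K L ∅ :=
    fun i => K_shift hL (E := ∅) i (fun g hg => absurd hg (Finset.notMem_empty g))
  have h4 := Finset.sum_le_sum fun i (_ : i ∈ (Finset.univ : Finset (Fin n))) => h3 i
  rw [Finset.sum_const, Finset.card_univ, Fintype.card_fin, nsmul_eq_mul] at h4
  have h5 : Hm (bern n) (pz (tup L) ∅) ≤ n * K L ∅ := by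
    have h6 : ((∅ : Finset (FreeGroup (Fin n))).card : ℝ) * Real.log 2 = 0 := by simp
    have h7 := h1.trans h4
    rw [h6, sub_zero] at h7
    exact h7
  exact h2.trans h5

include hL in
theorem K_empty : K L ∅ = Hm (bern n) L := by
  unfold K
  rw [Finset.card_empty, Nat.cast_zero, zero_mul, sub_zero]
  apply Hm_equiv (pz_mb hL _) hL
  intro x y
  constructor
  · intro h; exact (Prod.ext_iff.mp h).1
  · intro h
    exact Prod.ext h (z_eq.mpr fun g hg => absurd hg (Finset.notMem_empty g))

include hL hY hinv hdet hsmall in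
/-- first rule -/
theorem rule1 {E : Finset (FreeGroup (Fin n))} (hE : Good E) (hS : K L ∅ ≤ K L E) (i : Fin n) :
    K L ∅ ≤ Hm (bern n) (pz (fun x => L (shift (of i) x)) E) - E.card * Real.log 2 := by
  have h1 := main_ineq hL hY hinv hdet hsmall hE
  have h2 := tuple_le hL E
  have h3 : ∀ j : Fin n, K L ∅ ≤ K L (E.filter fun y => y * of j ∈ E) := fun j =>
    hS.trans (K_anti hL (Finset.filter_subset _ _))
  have h4 : ∀ j : Fin n, Hm (bern n) (pz (fun x => L (shift (of j) x)) E) - E.card * Real.log 2 ≤ K L ∅ :=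
    fun j => K_shift hL (E := ∅) j (fun g hg => absurd hg (Finset.notMem_empty g))
  have h5 : ∑ j : Fin n, K L (E.filter fun y => y * of j ∈ E) ≤
      ∑ j : Fin n, (Hm (bern n) (pz (fun x => L (shift (of j) x)) E) - E.card * Real.log 2) := by
    have h6 : Hm (bern n) (pz (tup L) E) - E.card * Real.log 2 ≤
      ∑ j : Fin n, (Hm (bern n) (pz (fun x => L (shift (of j) x)) E) - E.card * Real.log 2) := h2
    linarith
  by_contra hcon
  push Not at hcon
  have h7 : ∑ j : Fin n, (Hm (bern n) (pz (fun x => L (shift (of j) x)) E) - E.card * Real.log 2) <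
      ∑ j : Fin n, K L (E.filter fun y => y * of j ∈ E) :=
    Finset.sum_lt_sum (fun j _ => (h4 j).trans (h3 j)) ⟨i, Finset.mem_univ _, hcon.trans_le (h3 i)⟩
  linarith

include hL hY hinv hdet hsmall in
/-- second rule -/
theorem rule2 {E : Finset (FreeGroup (Fin n))} (hE : Good E)
    (hS : ∀ i : Fin n, K L ∅ ≤ K L (E.filter fun y => y * of i ∈ E)) : K L ∅ ≤ K L E := by
  have h1 := main_ineq hL hY hinv hdet hsmall hE
  have h2 := Finset.sum_le_sum fun i (_ : i ∈ (Finset.univ : Finset (Fin n))) => hS i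
  rw [Finset.sum_const, Finset.card_univ, Fintype.card_fin, nsmul_eq_mul] at h2
  have h3 := tup_le hL
  have s := Hm_submod (μ := bern n) (Y := Y) (a := tup L) (b := pz L E) (c := pz (tup L) E) (d := L)
    hY (tup_mb hL) (pz_mb hL E) hL
    (fun x _ y _ h4 h5 => Prod.ext h4 (Prod.ext_iff.mp h5).2)
    (fun x hx y hy h4 => hdet x hx y hy fun i => congrFun h4 i)
    (fun x _ y _ h4 => (Prod.ext_iff.mp h4).1)
  rw [← K_empty hL] at s
  unfold K at s h1 h2 h3 ⊢
  linarith

include hL hY hinv hdet hsmall in
/-- `L` is independent of the coordinates in a tree -/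
theorem indep {E : Finset (FreeGroup (Fin n))} (hE : Good E) : K L ∅ ≤ K L E := by
  induction hE with
  | one =>
    apply rule2 hL hY hinv hdet hsmall Good.one
    intro i
    have : ({1} : Finset (FreeGroup (Fin n))).filter (fun y => y * of i ∈ ({1} : Finset _)) = ∅ := by
      apply Finset.filter_eq_empty_iff.mpr
      intro y hy h
      rw [Finset.mem_singleton] at hy h
      rw [hy, one_mul] at h
      exact of_ne_one i h
    rw [this]
  | @step E hE g p hg hp hup ih =>
    apply rule2 hL hY hinv hdet hsmall (Good.step hE g p hg hp hup)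
    intro i
    by_cases hgi : g * of i ∈ E
    · -- then `g * (of i)⁻¹ ∉ E`
      have hgi' : g * (of i)⁻¹ ∉ E := by
        intro h
        have := unique_letter (g := g) (p := (i, true)) (q := (i, false)) (hup _ hgi) (hup _ h)
        simp at this
      refine (rule1 hL hY hinv hdet hsmall hE ih i).trans (K_shift hL i ?_)
      intro y hy
      rw [Finset.mem_filter] at hy
      rcases Finset.mem_insert.mp hy.2 with h | h
      · exfalso
        have hy1 : y = g * (of i)⁻¹ := eq_mul_inv_of_mul_eq h
        rcases Finset.mem_insert.mp hy.1 with h' | h'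
        · rw [h'] at h
          exact of_ne_one i (mul_eq_left.mp h)
        · exact hgi' (hy1 ▸ h')
      · exact h
    · refine ih.trans (K_anti hL ?_)
      intro y hy
      rw [Finset.mem_filter] at hy
      rcases Finset.mem_insert.mp hy.1 with h' | h'
      · exfalso
        rw [h'] at hy
        rcases Finset.mem_insert.mp hy.2 with h | h
        · exact of_ne_one i (mul_eq_left.mp h)
        · exact hgi h
      · exact h'

include hL hY hinv hdet hsmall in
theorem Hm_zero : Hm (bern n) L = 0 := by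
  apply le_antisymm _ (Hm_nonneg _)
  by_contra hcon
  push Not at hcon
  obtain ⟨W, hW⟩ := hsmall (Hm (bern n) L / 2) (by linarith)
  have h1 : ∃ r, W ⊆ ball n r := by
    refine ⟨W.sup FreeGroup.norm, fun g hg => ?_⟩
    rw [mem_ball]
    exact Finset.le_sup (f := FreeGroup.norm) hg
  obtain ⟨r, hr⟩ := h1
  have h2 := hW _ hr
  have h3 := indep hL hY hinv hdet hsmall (good_ball (n := n) r)
  rw [K_empty hL] at h3
  unfold K at h3
  linarith

end kernel

/-! ### approximation by cylinder functions -/

theorem approx {A : Set (Cfg n)} (hA : MeasurableSet A) (m : ℕ) :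
    ∃ (s : Finset (FreeGroup (Fin n))) (C : Set (Cfg n)), MeasurableSet C ∧
      (∀ x y, z s x = z s y → (x ∈ C ↔ y ∈ C)) ∧ (bern n).real (symmDiff A C) ≤ 1 / ((m : ℝ) + 1) := by
  have hd : (bern n).MeasureDense (measurableCylinders fun _ : FreeGroup (Fin n) => Bool) :=
    Measure.MeasureDense.of_generateFrom_isSetAlgebra_finite (bern n) isSetAlgebra_measurableCylinders
      generateFrom_measurableCylinders.symm
  obtain ⟨C, hC, hAC⟩ := hd.approx A hA (measure_ne_top _ _) (1 / ((m : ℝ) + 1)) (by positivity)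
  obtain ⟨s, S, hS, rfl⟩ := (mem_measurableCylinders _).mp hC
  refine ⟨s, _, MeasurableSet.of_mem_measurableCylinders hC, ?_, ?_⟩
  · intro x y hxy
    rw [mem_cylinder, mem_cylinder]
    have : s.restrict x = s.restrict y := hxy
    rw [this]
  · unfold Measure.real
    exact ENNReal.toReal_le_of_le_ofReal (by positivity) hAC.le

open Classical in
/-- indicator -/
def ind (A : Set (Cfg n)) : Cfg n → Bool := fun x => decide (x ∈ A)

theorem ind_eq {A : Set (Cfg n)} {x y : Cfg n} : ind A x = ind A y ↔ (x ∈ A ↔ y ∈ A) := by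
  unfold ind
  exact decide_eq_decide

theorem ind_mb {A : Set (Cfg n)} (hA : MeasurableSet A) : Mb (ind A) := by
  intro b
  cases b
  · have : ind A ⁻¹' {false} = Aᶜ := by ext x; simp [ind]
    rw [this]; exact hA.compl
  · have : ind A ⁻¹' {true} = A := by ext x; simp [ind]
    rw [this]; exact hA

theorem ind_small {A : Set (Cfg n)} (hA : MeasurableSet A) :
    ∀ ε > 0, ∃ W, ∀ E, W ⊆ E → Hm (bern n) (pz (ind A) E) - E.card * Real.log 2 ≤ ε := by
  intro ε hε
  choose s C hC hs hAC using fun m => approx hA m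
  have hlim : Tendsto (fun m : ℕ => (bern n).real (symmDiff A (C m))) atTop (𝓝 0) :=
    squeeze_zero (fun _ => measureReal_nonneg) hAC tendsto_one_div_add_atTop_nhds_zero_nat
  have hset : ∀ m, {x | ind (C m) x ≠ ind A x} = symmDiff A (C m) := by
    intro m
    ext x
    have h1 : ind (C m) x = ind A x ↔ (x ∈ C m ↔ x ∈ A) := by unfold ind; exact decide_eq_decide
    rw [Set.mem_ofPred_eq, ne_eq, h1, Set.mem_symmDiff]
    tauto
  have hset2 : ∀ m, {x | (ind A x, ind (C m) x) ≠ (ind A x, ind A x)} = symmDiff A (C m) := by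
    intro m
    rw [← hset m]
    ext x
    simp
  have t1 : Tendsto (fun m => Hm (bern n) (ind (C m))) atTop (𝓝 (Hm (bern n) (ind A))) := by
    apply Hm_tendsto (fun m => ind_mb (hC m)) (ind_mb hA)
    simp only [hset]; exact hlim
  have t2 : Tendsto (fun m => Hm (bern n) (fun x => (ind A x, ind (C m) x))) atTop
      (𝓝 (Hm (bern n) (fun x => (ind A x, ind A x)))) := by
    apply Hm_tendsto (fun m => (ind_mb hA).prod (ind_mb (hC m))) ((ind_mb hA).prod (ind_mb hA))
    simp only [hset2]; exact hlim
  have t3 : Hm (bern n) (fun x => (ind A x, ind A x)) = Hm (bern n) (ind A) :=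
    Hm_equiv ((ind_mb hA).prod (ind_mb hA)) (ind_mb hA) fun x y =>
      ⟨fun h => (Prod.ext_iff.mp h).1, fun h => Prod.ext h h⟩
  have t4 := t2.sub t1
  rw [t3, sub_self] at t4
  obtain ⟨m, hm⟩ := (t4.eventually (gt_mem_nhds hε)).exists
  refine ⟨s m, fun E hE => ?_⟩
  refine (cond_mono (ind_mb hA) (ind_mb (hC m)) E ?_).trans hm.le
  intro x y hxy
  rw [ind_eq]
  exact hs m x y (z_eq.mpr fun g hg => z_eq.mp hxy g (hE hg))

theorem negMulLog_pos {p : ℝ} (h0 : 0 < p) (h1 : p < 1) : 0 < Real.negMulLog p := by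
  unfold Real.negMulLog
  have := Real.log_neg h0 h1
  nlinarith

/-- **Main theorem.** For `n ≥ 1` the directed Schreier graph of the Bernoulli shift of the free
group `F_n` has no measurable kernel. -/
theorem result (n : ℕ) (hn : 1 ≤ n) : ¬ HasMeasurableKernel n := by
  rintro ⟨Y, A, -, hYm, hinv, hY1, hA, hker⟩
  have hY : ∀ᵐ x ∂(bern n), x ∈ Y := by
    rw [← prob_compl_eq_zero_iff hYm] at hY1
    exact hY1
  have hdet : ∀ x ∈ Y, ∀ y ∈ Y, (∀ i : Fin n, ind A (shift (of i) x) = ind A (shift (of i) y)) →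
      ind A x = ind A y := by
    have key : ∀ x ∈ Y, (x ∈ A ↔ ∀ i : Fin n, shift (of i) x ∉ A) := by
      intro x hx
      constructor
      · intro hxA i hi
        exact hker.independent x hxA _ hi i rfl
      · intro h
        by_contra hxA
        obtain ⟨i, hi⟩ := hker.dominating x hx hxA
        exact h i hi
    intro x hx y hy h
    rw [ind_eq, key x hx, key y hy]
    exact forall_congr' fun i => not_congr (ind_eq.mp (h i))
  have h0 := Hm_zero (ind_mb hA) hY hinv hdet (ind_small hA)
  have hreal : ∀ g : FreeGroup (Fin n), (bern n).real (shift g ⁻¹' A) = (bern n).real A := fun g =>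
    (shift_mp g).measureReal_preimage hA.nullMeasurableSet
  set p := (bern n).real A with hp
  have hpA : (bern n).real (ind A ⁻¹' {true}) = p := by
    have : ind A ⁻¹' {true} = A := by ext x; simp [ind]
    rw [this]
  have hnn : ∀ b : Bool, 0 ≤ Real.negMulLog ((bern n).real (ind A ⁻¹' {b})) := fun b =>
    Real.negMulLog_nonneg measureReal_nonneg measureReal_le_one
  have hpz : Real.negMulLog p = 0 := by
    unfold Hm at h0
    rw [Fintype.sum_bool, hpA] at h0
    have := hnn false
    have h2 : 0 ≤ Real.negMulLog p := by rw [← hpA]; exact hnn true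
    linarith
  have hp01 : p = 0 ∨ p = 1 := by
    by_contra hcon
    push Not at hcon
    have h1 : 0 < p := lt_of_le_of_ne measureReal_nonneg (Ne.symm hcon.1)
    have h2 : p < 1 := lt_of_le_of_ne measureReal_le_one hcon.2
    exact (negMulLog_pos h1 h2).ne' hpz
  rcases hp01 with h | h
  · -- the kernel is null
    have hnull : ∀ g : FreeGroup (Fin n), ∀ᵐ x ∂(bern n), shift g x ∉ A := by
      intro g
      have h1 : (bern n).real (shift g ⁻¹' A) = 0 := (hreal g).trans h
      rw [measureReal_eq_zero_iff] at h1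
      exact measure_eq_zero_iff_ae_notMem.mp h1
    have hall : ∀ᵐ x ∂(bern n), ∀ g : FreeGroup (Fin n), shift g x ∉ A := ae_all_iff.mpr hnull
    obtain ⟨x, hx1, hx2⟩ := (hY.and hall).exists
    have hxA : x ∉ A := by
      have := hx2 1
      have h1 : shift 1 x = x := by funext k; show x (k * 1) = x k; rw [mul_one]
      rwa [h1] at this
    obtain ⟨i, hi⟩ := hker.dominating x hx1 hxA
    exact hx2 _ hi
  · -- the kernel is conull
    have hfull : ∀ g : FreeGroup (Fin n), ∀ᵐ x ∂(bern n), shift g x ∈ A := by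
      intro g
      have h1 : (bern n).real (shift g ⁻¹' A) = 1 := (hreal g).trans h
      have h2 : bern n (shift g ⁻¹' A) = 1 := by
        unfold Measure.real at h1
        rwa [ENNReal.toReal_eq_one_iff] at h1
      rw [← prob_compl_eq_zero_iff ((shift_mp g).measurable hA)] at h2
      exact h2
    obtain ⟨x, hx1, hx2⟩ := ((hfull 1).and (hfull (of ⟨0, hn⟩))).exists
    have h1 : shift 1 x = x := by funext k; show x (k * 1) = x k; rw [mul_one]
    rw [h1] at hx1
    exact hker.independent x hx1 _ hx2 _ rfl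

end

end Pool.Agent.Results.MP_2e25e6_lc.NoMeasurableKernel
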